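import Pool.Agent.Helper98.MW.Defs

/-! MW-B01. The cutoff `chi x = smoothTransition (2 - 2x) * smoothTransition (2 + 2x)`: for `|x| ≤ 1/2` both arguments
are `≥ 1`; for `1 ≤ |x|` one of them is `≤ 0`. -/

namespace Pool.Agent.Helper98.MW

theorem contDiff_chi : ContDiff ℝ (⊤ : ℕ∞) chi := by
  unfold chi
  exact (Real.smoothTransition.contDiff.comp (contDiff_const.sub (contDiff_const.mul contDiff_id))).mul
    (Real.smoothTransition.contDiff.comp (contDiff_const.add (contDiff_const.mul contDiff_id)))

theorem chi_eq_one {x : ℝ} (h : |x| ≤ 1 / 2) : chi x = 1 := by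
  obtain ⟨h1, h2⟩ := abs_le.1 h
  unfold chi
  rw [Real.smoothTransition.one_of_one_le (by linarith),
    Real.smoothTransition.one_of_one_le (by linarith), mul_one]

theorem chi_eq_zero {x : ℝ} (h : 1 ≤ |x|) : chi x = 0 := by
  unfold chi
  rcases le_abs.1 h with h1 | h1
  · rw [Real.smoothTransition.zero_of_nonpos (by linarith), zero_mul]
  · rw [Real.smoothTransition.zero_of_nonpos (x := 2 + 2 * x) (by linarith), mul_zero]

theorem chi_nonneg (x : ℝ) : 0 ≤ chi x :=
  mul_nonneg (Real.smoothTransition.nonneg _) (Real.smoothTransition.nonneg _)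

theorem chi_le_one (x : ℝ) : chi x ≤ 1 :=
  mul_le_one₀ (Real.smoothTransition.le_one _) (Real.smoothTransition.nonneg _)
    (Real.smoothTransition.le_one _)

end Pool.Agent.Helper98.MW
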