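import Pool.Agent.Helper98.MW.Defs

/-! MW-B12. The local drift is closer to the centre. With `λ = 1 - η^2/4`, `s = cos (2πy)`, `α = a - c.1`, `β = b - c.2`:
`(al - c.1)^2 + (bl - c.2)^2 = (λ^2 + (η s/2)^2) (α^2 + β^2)` and `λ^2 + η^2/4 = 1 - η^2/4 + η^4/16`. -/

namespace Pool.Agent.Helper98.MW

theorem local_drift_sq (c : ℝ × ℝ) (η a b y : ℝ) :
    (al c η a b y - c.1) ^ 2 + (bl c η a b y - c.2) ^ 2
      = ((1 - η ^ 2 / 4) ^ 2 + (η / 2 * Real.cos (2 * Real.pi * y)) ^ 2)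
        * ((a - c.1) ^ 2 + (b - c.2) ^ 2) := by
  unfold al bl
  ring

/-- the growth factor: `θ > 1`, `θ ^ 2 (1 - η^2/4 + η^4/16) ≤ 1` -/
theorem contract {c : ℝ × ℝ} {η θ r a b : ℝ} (y : ℝ) (hη : 0 < η) (hη1 : η ≤ 1)
    (hθ : θ ^ 2 * (1 - η ^ 2 / 4 + η ^ 4 / 16) ≤ 1) (h : (a, b) ∈ Disc c (θ * r)) :
    (al c η a b y, bl c η a b y) ∈ Disc c r := by
  have h1 : (a - c.1) ^ 2 + (b - c.2) ^ 2 ≤ (θ * r) ^ 2 := h
  change (al c η a b y - c.1) ^ 2 + (bl c η a b y - c.2) ^ 2 ≤ r ^ 2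
  rw [local_drift_sq]
  have hcos : Real.cos (2 * Real.pi * y) ^ 2 ≤ 1 := by
    have := Real.cos_sq_add_sin_sq (2 * Real.pi * y)
    nlinarith [sq_nonneg (Real.sin (2 * Real.pi * y))]
  have h2 : (1 - η ^ 2 / 4) ^ 2 + (η / 2 * Real.cos (2 * Real.pi * y)) ^ 2
      ≤ 1 - η ^ 2 / 4 + η ^ 4 / 16 := by
    have h3 : (η / 2 * Real.cos (2 * Real.pi * y)) ^ 2 ≤ η ^ 2 / 4 := by
      have h4 := mul_le_mul_of_nonneg_left hcos (by positivity : (0 : ℝ) ≤ η ^ 2 / 4)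
      calc (η / 2 * Real.cos (2 * Real.pi * y)) ^ 2
          = η ^ 2 / 4 * Real.cos (2 * Real.pi * y) ^ 2 := by ring
        _ ≤ η ^ 2 / 4 * 1 := h4
        _ = η ^ 2 / 4 := by ring
    calc (1 - η ^ 2 / 4) ^ 2 + (η / 2 * Real.cos (2 * Real.pi * y)) ^ 2
        ≤ (1 - η ^ 2 / 4) ^ 2 + η ^ 2 / 4 := by linarith
      _ = 1 - η ^ 2 / 4 + η ^ 4 / 16 := by ring
  calc ((1 - η ^ 2 / 4) ^ 2 + (η / 2 * Real.cos (2 * Real.pi * y)) ^ 2)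
        * ((a - c.1) ^ 2 + (b - c.2) ^ 2)
      ≤ (1 - η ^ 2 / 4 + η ^ 4 / 16) * (θ * r) ^ 2 := by
        apply mul_le_mul h2 h1 (by positivity)
        exact le_trans (by positivity) h2
    _ = (θ ^ 2 * (1 - η ^ 2 / 4 + η ^ 4 / 16)) * r ^ 2 := by ring
    _ ≤ 1 * r ^ 2 := mul_le_mul_of_nonneg_right hθ (sq_nonneg r)
    _ = r ^ 2 := one_mul _

theorem exists_theta {η : ℝ} (hη : 0 < η) (hη1 : η ≤ 1) :
    ∃ θ > 1, θ ^ 2 * (1 - η ^ 2 / 4 + η ^ 4 / 16) ≤ 1 := by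
  have hsq : 0 < η ^ 2 := by positivity
  have hsq1 : η ^ 2 ≤ 1 := by nlinarith
  have h4 : η ^ 4 = η ^ 2 * η ^ 2 := by ring
  have h5 : η ^ 4 ≤ η ^ 2 := by rw [h4]; nlinarith
  have hg0 : 0 < 1 - η ^ 2 / 4 + η ^ 4 / 16 := by
    have : 0 ≤ η ^ 4 := by positivity
    linarith
  have hg1 : 1 - η ^ 2 / 4 + η ^ 4 / 16 < 1 := by linarith
  refine ⟨(Real.sqrt (1 - η ^ 2 / 4 + η ^ 4 / 16))⁻¹, ?_, ?_⟩
  · apply (one_lt_inv₀ (Real.sqrt_pos.mpr hg0)).mpr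
    rw [Real.sqrt_lt' one_pos]
    linarith
  · rw [inv_pow, Real.sq_sqrt hg0.le, inv_mul_cancel₀ hg0.ne']

end Pool.Agent.Helper98.MW
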