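import Pool.Agent.Helper98.MW.B.Smooth

/-! MW-B03. Smoothness in `P` for fixed `η` (compose B02 with `P ↦ (η, P)`). -/

namespace Pool.Agent.Helper98.MW

private theorem Fixed_pair (η : ℝ) :
    ContDiff ℝ (⊤ : ℕ∞) (fun P : P4 => ((η, P) : ℝ × P4)) :=
  contDiff_const.prodMk contDiff_id

theorem contDiff_den_fix (η : ℝ) : ContDiff ℝ (⊤ : ℕ∞) (fun P : P4 => den η P.2.2.2) := by
  have h := (contDiff_den).comp (Fixed_pair η)
  simpa only [Function.comp_def] using h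

theorem contDiff_al_fix (c : ℝ × ℝ) (η : ℝ) :
    ContDiff ℝ (⊤ : ℕ∞) (fun P : P4 => al c η P.1 P.2.1 P.2.2.2) := by
  have h := (contDiff_al c).comp (Fixed_pair η)
  simpa only [Function.comp_def] using h

theorem contDiff_bl_fix (c : ℝ × ℝ) (η : ℝ) :
    ContDiff ℝ (⊤ : ℕ∞) (fun P : P4 => bl c η P.1 P.2.1 P.2.2.2) := by
  have h := (contDiff_bl c).comp (Fixed_pair η)
  simpa only [Function.comp_def] using h

theorem contDiff_EE_fix (c : ℝ × ℝ) (η : ℝ) :
    ContDiff ℝ (⊤ : ℕ∞) (fun P : P4 => EE c η P.1 P.2.1 P.2.2.1 P.2.2.2) := by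
  have h := (contDiff_EE c).comp (Fixed_pair η)
  simpa only [Function.comp_def] using h

theorem contDiff_mm_fix (η : ℝ) : ContDiff ℝ (⊤ : ℕ∞) (fun P : P4 => mm η P.2.2.1 P.2.2.2) := by
  have h := (contDiff_mm).comp (Fixed_pair η)
  simpa only [Function.comp_def] using h

theorem contDiff_TT_fix (η : ℝ) : ContDiff ℝ (⊤ : ℕ∞) (fun P : P4 => TT η P.2.2.1 P.2.2.2) := by
  have h := (contDiff_TT).comp (Fixed_pair η)
  simpa only [Function.comp_def] using h

theorem contDiff_T0_fix (η : ℝ) : ContDiff ℝ (⊤ : ℕ∞) (fun P : P4 => T0 η P.2.2.1 P.2.2.2) := by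
  have h := (contDiff_T0).comp (Fixed_pair η)
  simpa only [Function.comp_def] using h

theorem contDiff_SS_fix (η : ℝ) : ContDiff ℝ (⊤ : ℕ∞) (fun P : P4 => SS η P.2.2.1 P.2.2.2) := by
  have h := (contDiff_SS).comp (Fixed_pair η)
  simpa only [Function.comp_def] using h

theorem contDiff_Out_fix (σ : ℝ) (c : ℝ × ℝ) (η : ℝ) :
    ContDiff ℝ (⊤ : ℕ∞) (fun P : P4 => Out σ c (η, P)) := by
  have h := (contDiff_Out σ c).comp (Fixed_pair η)
  simpa only [Function.comp_def] using h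

end Pool.Agent.Helper98.MW
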