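import Pool.Agent.Helper98.MW.Defs

/-! MW-B09. Derivatives of the profile functions in `y`.
With `T = 2 π y`, `s = cos T`, `kap = η s`, `cos 2T = 2 s^2 - 1`, `sin 2T = 2 sin T cos T`,
`sin 3T = 3 sin T - 4 sin T ^ 3`:
* `cc' = kap`;
* `e1' = 2π (cP1 cos T + 2 cP2 cos 2T) = al + bl kap - a`;
* `g2' = 2π (cQ1 cos T + 2 cQ2 cos 2T) = bl - b - (al + a) kap`;
* `e0' = (cQ1 + η cP2/2) sin T + (cQ2 + η cP1/2) sin 2T + η cP2/2 sin 3T = kap e1 + g2`.
(all checked numerically). -/

namespace Pool.Agent.Helper98.MW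

open Real

private theorem dlin (m y : ℝ) : HasDerivAt (fun y : ℝ => m * y) m y := by
  simpa using (hasDerivAt_id y).const_mul m

private theorem dT (y : ℝ) : HasDerivAt (fun y : ℝ => 2 * π * y) (2 * π) y := dlin _ y

private theorem dkT (k y : ℝ) : HasDerivAt (fun y : ℝ => k * (2 * π * y)) (k * (2 * π)) y :=
  (dT y).const_mul k

private theorem ds (y : ℝ) :
    HasDerivAt (fun y : ℝ => sin (2 * π * y)) (cos (2 * π * y) * (2 * π)) y := (dT y).sin

private theorem dc (y : ℝ) :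
    HasDerivAt (fun y : ℝ => cos (2 * π * y)) (-sin (2 * π * y) * (2 * π)) y := (dT y).cos

private theorem dsk (k y : ℝ) :
    HasDerivAt (fun y : ℝ => sin (k * (2 * π * y))) (cos (k * (2 * π * y)) * (k * (2 * π))) y :=
  (dkT k y).sin

private theorem dck (k y : ℝ) :
    HasDerivAt (fun y : ℝ => cos (k * (2 * π * y))) (-sin (k * (2 * π * y)) * (k * (2 * π))) y :=
  (dkT k y).cos

theorem hasDerivAt_cc (η y : ℝ) : HasDerivAt (fun y => cc η y) (kap η y) y := by
  unfold cc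
  have h := (ds y).const_mul (η / (2 * π))
  refine h.congr_deriv ?_
  unfold kap
  have hpi : π ≠ 0 := pi_ne_zero
  field_simp

theorem hasDerivAt_e1 (c : ℝ × ℝ) (η a b y : ℝ) :
    HasDerivAt (fun y => e1 c η a b y) (al c η a b y + bl c η a b y * kap η y - a) y := by
  unfold e1
  have h := ((ds y).const_mul (cP1 c η b)).add ((dsk 2 y).const_mul (cP2 c η a))
  refine h.congr_deriv ?_
  unfold al bl kap cP1 cP2
  rw [cos_two_mul]
  have hpi : π ≠ 0 := pi_ne_zero
  field_simp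
  ring

theorem hasDerivAt_g2 (c : ℝ × ℝ) (η a b y : ℝ) :
    HasDerivAt (fun y => g2 c η a b y)
      (bl c η a b y - b - (al c η a b y + a) * kap η y) y := by
  unfold g2
  have h := ((ds y).const_mul (cQ1 c η a)).add ((dsk 2 y).const_mul (cQ2 c η b))
  refine h.congr_deriv ?_
  unfold al bl kap cQ1 cQ2
  rw [cos_two_mul]
  have hpi : π ≠ 0 := pi_ne_zero
  field_simp
  ring

theorem hasDerivAt_e0 (c : ℝ × ℝ) (η a b y : ℝ) :
    HasDerivAt (fun y => e0 c η a b y) (kap η y * e1 c η a b y + g2 c η a b y) y := by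
  unfold e0
  have h := ((((dc y).const_mul (cQ1 c η a + η * cP2 c η a / 2)).add
    ((dck 2 y).const_mul ((cQ2 c η b + η * cP1 c η b / 2) / 2))).add
    ((dck 3 y).const_mul (η * cP2 c η a / 6))).const_mul (-(1 / (2 * π)))
  refine h.congr_deriv ?_
  unfold e1 g2 kap
  rw [sin_three_mul, sin_two_mul]
  have hpi : π ≠ 0 := pi_ne_zero
  have h2 : sin (2 * π * y) ^ 3 = sin (2 * π * y) * (1 - cos (2 * π * y) ^ 2) := by
    rw [pow_succ, sin_sq]
    ring
  rw [h2]
  field_simp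
  ring

end Pool.Agent.Helper98.MW
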