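import Pool.Agent.Helper98.MW.A.Slice
import Pool.Agent.Helper98.MW.B.Fixed
import Pool.Agent.Helper98.MW.B.Profile

/-! MW-B10. The Hessian of `QQ + EE` on the zigzag `x = cc η y` is `(N11, N12, N22)`.
Proof (slices `H2_slice_*`, `f = QQ + EE`, write `d = x - cc η y`, `n y = N11 c η a b y`, differentiable in `y`):
* `f_x = a y + e1 + n d`, `f_xx = n`;
* `f_y = a x + b y + e0' + e1' d - e1 kap + n' d^2/2 - n d kap`, with `e0' = kap e1 + g2`, so
  `f_y = a x + b y + g2 + e1' d + n' d^2/2 - n d kap`; on `d = 0`: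
  `f_xy = a + e1' - n kap = al + bl kap - N11 kap = N12` (multiply by `den`);
* `f_yy` at `d = 0`: `b + g2' - e1' kap + n kap^2 = bl - (al + a) kap - (al + bl kap - a) kap + N11 kap^2 = N22`
  (the terms with `d` or `d^2` and their derivatives: `(e1' d)' = e1'' d - e1' kap`, `(n' d^2/2)' = 0`,
  `(-n d kap)' = n kap^2` at `d = 0`). For `f_yy` it is convenient to note `f_y (a,b,x,y) = a x + b y + g2 + R (y) d + S (y) d^2`
  with smooth `R = e1' - n kap` (`e1'` replaced by the formula of `hasDerivAt_e1`), `S = n'/2`. -/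

namespace Pool.Agent.Helper98.MW

private theorem cd_N11 (c : ℝ × ℝ) (η a b : ℝ) :
    ContDiff ℝ (⊤ : ℕ∞) (fun y : ℝ => N11 c η a b y) := by
  unfold N11 al bl den kap
  apply ContDiff.div
  · fun_prop
  · fun_prop
  · intro y
    positivity

private theorem d_N11 (c : ℝ × ℝ) (η a b y : ℝ) :
    HasDerivAt (fun y : ℝ => N11 c η a b y) (deriv (fun y : ℝ => N11 c η a b y) y) y :=
  (((cd_N11 c η a b).differentiable (by simp)) y).hasDerivAt

private theorem d_dN11 (c : ℝ × ℝ) (η a b y : ℝ) :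
    HasDerivAt (deriv (fun y : ℝ => N11 c η a b y))
      (deriv (deriv (fun y : ℝ => N11 c η a b y)) y) y := by
  have h : ContDiff ℝ (⊤ : ℕ∞) (deriv (fun y : ℝ => N11 c η a b y)) := by
    have := (contDiff_infty_iff_deriv.1 (cd_N11 c η a b)).2
    exact this
  exact ((h.differentiable (by simp)) y).hasDerivAt

private theorem cd_F (c : ℝ × ℝ) (η : ℝ) :
    ContDiff ℝ (⊤ : ℕ∞) (fun P : P4 => QQ P + EE c η P.1 P.2.1 P.2.2.1 P.2.2.2) := by
  have h1 : ContDiff ℝ (⊤ : ℕ∞) (fun P : P4 => QQ P) := by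
    unfold QQ
    fun_prop
  exact h1.add (contDiff_EE_fix c η)

private theorem F_eq (c : ℝ × ℝ) (η a b x y : ℝ) :
    (fun P : P4 => QQ P + EE c η P.1 P.2.1 P.2.2.1 P.2.2.2) (a, b, x, y) =
      a * x * y + b * y ^ 2 / 2 + (e0 c η a b y + e1 c η a b y * (x - cc η y)
        + N11 c η a b y * (x - cc η y) ^ 2 / 2) := rfl

private theorem dx_F (c : ℝ × ℝ) (η a b x y : ℝ) :
    HasDerivAt (fun x : ℝ => (fun P : P4 => QQ P + EE c η P.1 P.2.1 P.2.2.1 P.2.2.2) (a, b, x, y))
      (a * y + e1 c η a b y + N11 c η a b y * (x - cc η y)) x := by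
  have hd : HasDerivAt (fun x : ℝ => x - cc η y) 1 x := (hasDerivAt_id' x).sub_const _
  have h1 : HasDerivAt (fun x : ℝ => a * x * y + b * y ^ 2 / 2 + (e0 c η a b y
      + e1 c η a b y * (x - cc η y) + N11 c η a b y * (x - cc η y) ^ 2 / 2))
      (a * 1 * y + (e1 c η a b y * 1
        + N11 c η a b y * (2 * (x - cc η y) ^ (2 - 1) * 1) / 2)) x :=
    ((((hasDerivAt_id' x).const_mul a).mul_const y).add_const _).add
      (((hd.const_mul _).const_add _).add (((hd.pow 2).const_mul _).div_const 2))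
  refine h1.congr_deriv ?_
  ring

theorem curve_xx (c : ℝ × ℝ) (η a b y : ℝ) :
    H2 (fun P : P4 => QQ P + EE c η P.1 P.2.1 P.2.2.1 P.2.2.2) (a, b, cc η y, y) eX eX
      = N11 c η a b y := by
  rw [H2_slice_xx (cd_F c η)]
  simp only [(dx_F c η a b _ _).deriv]
  have h : HasDerivAt (fun x : ℝ => a * y + e1 c η a b y + N11 c η a b y * (x - cc η y))
      (N11 c η a b y * 1) (cc η y) :=
    (((hasDerivAt_id' (cc η y)).sub_const _).const_mul _).const_add _
  rw [h.deriv, mul_one]

theorem curve_xy (c : ℝ × ℝ) (η a b y : ℝ) :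
    H2 (fun P : P4 => QQ P + EE c η P.1 P.2.1 P.2.2.1 P.2.2.2) (a, b, cc η y, y) eX eY
      = N12 c η a b y := by
  rw [H2_slice_yx (cd_F c η)]
  simp only [(dx_F c η a b _ _).deriv]
  have hd : HasDerivAt (fun y' : ℝ => cc η y - cc η y') (-kap η y) y :=
    (hasDerivAt_cc η y).const_sub _
  have h : HasDerivAt (fun y' : ℝ => a * y' + e1 c η a b y' + N11 c η a b y' * (cc η y - cc η y'))
      (a * 1 + (al c η a b y + bl c η a b y * kap η y - a)
        + (deriv (fun y : ℝ => N11 c η a b y) y * (cc η y - cc η y)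
          + N11 c η a b y * (-kap η y))) y :=
    (((hasDerivAt_id' y).const_mul a).add (hasDerivAt_e1 c η a b y)).add
      ((d_N11 c η a b y).mul hd)
  rw [h.deriv]
  have hden := (den_pos η y).ne'
  unfold N11 N12
  field_simp
  unfold den
  ring

private theorem dy_F (c : ℝ × ℝ) (η a b x y : ℝ) :
    HasDerivAt (fun y : ℝ => (fun P : P4 => QQ P + EE c η P.1 P.2.1 P.2.2.1 P.2.2.2) (a, b, x, y))
      (a * x + b * y + g2 c η a b y + (al c η a b y + bl c η a b y * kap η y - a) * (x - cc η y)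
        + deriv (fun y : ℝ => N11 c η a b y) y * (x - cc η y) ^ 2 / 2
        - N11 c η a b y * ((x - cc η y) * kap η y)) y := by
  have hd : HasDerivAt (fun y' : ℝ => x - cc η y') (-kap η y) y :=
    (hasDerivAt_cc η y).const_sub _
  have h1 : HasDerivAt (fun y : ℝ => a * x * y + b * y ^ 2 / 2 + (e0 c η a b y
      + e1 c η a b y * (x - cc η y) + N11 c η a b y * (x - cc η y) ^ 2 / 2))
      (a * x * 1 + b * (2 * y ^ (2 - 1) * 1) / 2 + ((kap η y * e1 c η a b y + g2 c η a b y)
        + ((al c η a b y + bl c η a b y * kap η y - a) * (x - cc η y)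
          + e1 c η a b y * (-kap η y))
        + (deriv (fun y : ℝ => N11 c η a b y) y * (x - cc η y) ^ 2
          + N11 c η a b y * (2 * (x - cc η y) ^ (2 - 1) * (-kap η y))) / 2)) y :=
    (((hasDerivAt_id' y).const_mul (a * x)).add
      ((((hasDerivAt_id' y).pow 2).const_mul b).div_const 2)).add
      (((hasDerivAt_e0 c η a b y).add ((hasDerivAt_e1 c η a b y).mul hd)).add
        (((d_N11 c η a b y).mul (hd.pow 2)).div_const 2))
  refine h1.congr_deriv ?_
  ring

theorem curve_yy (c : ℝ × ℝ) (η a b y : ℝ) :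
    H2 (fun P : P4 => QQ P + EE c η P.1 P.2.1 P.2.2.1 P.2.2.2) (a, b, cc η y, y) eY eY
      = N22 c η a b y := by
  rw [H2_slice_yy (cd_F c η)]
  simp only [(dy_F c η a b _ _).deriv]
  have hd : HasDerivAt (fun y' : ℝ => cc η y - cc η y') (-kap η y) y :=
    (hasDerivAt_cc η y).const_sub _
  have ck : ContDiff ℝ (⊤ : ℕ∞) (fun y : ℝ => kap η y) := by
    unfold kap
    fun_prop
  have ca : ContDiff ℝ (⊤ : ℕ∞)
      (fun y : ℝ => al c η a b y + bl c η a b y * kap η y - a) := by
    unfold al bl kap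
    fun_prop
  have hk := ((ck.differentiable (by simp)) y).hasDerivAt
  have ha := ((ca.differentiable (by simp)) y).hasDerivAt
  have h : HasDerivAt (fun y' : ℝ => a * cc η y + b * y' + g2 c η a b y'
      + (al c η a b y' + bl c η a b y' * kap η y' - a) * (cc η y - cc η y')
      + deriv (fun y : ℝ => N11 c η a b y) y' * (cc η y - cc η y') ^ 2 / 2
      - N11 c η a b y' * ((cc η y - cc η y') * kap η y'))
      (0 + b * 1 + (bl c η a b y - b - (al c η a b y + a) * kap η y)
        + (deriv (fun y : ℝ => al c η a b y + bl c η a b y * kap η y - a) y * (cc η y - cc η y)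
          + (al c η a b y + bl c η a b y * kap η y - a) * (-kap η y))
        + (deriv (deriv (fun y : ℝ => N11 c η a b y)) y * (cc η y - cc η y) ^ 2
          + deriv (fun y : ℝ => N11 c η a b y) y
            * (2 * (cc η y - cc η y) ^ (2 - 1) * (-kap η y))) / 2
        - (deriv (fun y : ℝ => N11 c η a b y) y * ((cc η y - cc η y) * kap η y)
          + N11 c η a b y * ((-kap η y) * kap η y
            + (cc η y - cc η y) * deriv (fun y : ℝ => kap η y) y))) y :=
    (((((hasDerivAt_const y (a * cc η y)).add ((hasDerivAt_id' y).const_mul b)).add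
      (hasDerivAt_g2 c η a b y)).add (ha.mul hd)).add
      (((d_dN11 c η a b y).mul (hd.pow 2)).div_const 2)).sub
      ((d_N11 c η a b y).mul (hd.mul hk))
  rw [h.deriv]
  have hden := (den_pos η y).ne'
  have e0 : cc η y - cc η y = 0 := sub_self _
  rw [e0]
  have e2 : N22 c η a b y = bl c η a b y - 2 * al c η a b y * kap η y
      - bl c η a b y * kap η y ^ 2 + N11 c η a b y * kap η y ^ 2 := by
    unfold N11 N22
    field_simp
    unfold den
    ring
  rw [e2]
  ring

end Pool.Agent.Helper98.MW
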