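import Pool.Agent.Helper98.MW.Defs

/-! MW-B07. Discs: compactness (closed and bounded in `ℝ × ℝ`: `|z.1 - c.1| ≤ |r|`, `|z.2 - c.2| ≤ |r|`), monotonicity,
and the discs around `(a, 0)`: for `0 < a ≤ 1`, `(z.1 - a)^2 + z.2^2 ≤ (a^2/8)^2` gives `z.1 ≥ a - a^2/8 ≥ 7a/8`,
`2|z.2| ≤ a^2/4 < (7a/8)^2`. -/

namespace Pool.Agent.Helper98.MW

theorem isCompact_Disc (c : ℝ × ℝ) (r : ℝ) : IsCompact (Disc c r) := by
  have hclosed : IsClosed (Disc c r) := by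
    unfold Disc
    apply isClosed_le
    · fun_prop
    · exact continuous_const
  have hsub : Disc c r ⊆ Set.Icc (c.1 - |r|) (c.1 + |r|) ×ˢ Set.Icc (c.2 - |r|) (c.2 + |r|) := by
    intro z hz
    have hz' : (z.1 - c.1) ^ 2 + (z.2 - c.2) ^ 2 ≤ r ^ 2 := hz
    have h1 : |z.1 - c.1| ≤ |r| := by
      apply sq_le_sq.mp
      nlinarith [sq_nonneg (z.2 - c.2)]
    have h2 : |z.2 - c.2| ≤ |r| := by
      apply sq_le_sq.mp
      nlinarith [sq_nonneg (z.1 - c.1)]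
    rw [abs_le] at h1 h2
    refine ⟨⟨?_, ?_⟩, ⟨?_, ?_⟩⟩ <;> linarith [h1.1, h1.2, h2.1, h2.2]
  exact (isCompact_Icc.prod isCompact_Icc).of_isClosed_subset hclosed hsub

theorem Disc_mono (c : ℝ × ℝ) {r s : ℝ} (hr : 0 ≤ r) (h : r ≤ s) : Disc c r ⊆ Disc c s := by
  intro z hz
  have hz' : (z.1 - c.1) ^ 2 + (z.2 - c.2) ^ 2 ≤ r ^ 2 := hz
  show (z.1 - c.1) ^ 2 + (z.2 - c.2) ^ 2 ≤ s ^ 2
  have : r ^ 2 ≤ s ^ 2 := pow_le_pow_left₀ hr h 2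
  linarith

/-- a disc inside a disc: `|c' - c| + r' ≤ r` -/
theorem Disc_subset_Disc {c c' : ℝ × ℝ} {r r' d : ℝ} (hr' : 0 ≤ r') (hd : 0 ≤ d)
    (hc : (c'.1 - c.1) ^ 2 + (c'.2 - c.2) ^ 2 ≤ d ^ 2) (h : d + r' ≤ r) :
    Disc c' r' ⊆ Disc c r := by
  intro z hz
  have hz' : (z.1 - c'.1) ^ 2 + (z.2 - c'.2) ^ 2 ≤ r' ^ 2 := hz
  show (z.1 - c.1) ^ 2 + (z.2 - c.2) ^ 2 ≤ r ^ 2
  set a := z.1 - c'.1 with ha
  set b := z.2 - c'.2 with hb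
  set p := c'.1 - c.1 with hp
  set q := c'.2 - c.2 with hq
  have e1 : z.1 - c.1 = a + p := by rw [ha, hp]; ring
  have e2 : z.2 - c.2 = b + q := by rw [hb, hq]; ring
  rw [e1, e2]
  have hcs : (a * p + b * q) ^ 2 ≤ (r' * d) ^ 2 := by
    have h1 : (a * p + b * q) ^ 2 ≤ (a ^ 2 + b ^ 2) * (p ^ 2 + q ^ 2) := by
      nlinarith [sq_nonneg (a * q - b * p)]
    have h2 : (a ^ 2 + b ^ 2) * (p ^ 2 + q ^ 2) ≤ r' ^ 2 * d ^ 2 := by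
      apply mul_le_mul hz' hc (by positivity) (by positivity)
    calc (a * p + b * q) ^ 2 ≤ _ := h1
      _ ≤ _ := h2
      _ = (r' * d) ^ 2 := by ring
  have hcs' : a * p + b * q ≤ r' * d := by
    have := sq_le_sq.mp hcs
    rw [abs_of_nonneg (mul_nonneg hr' hd)] at this
    exact (le_abs_self _).trans this
  have h3 : (d + r') ^ 2 ≤ r ^ 2 := pow_le_pow_left₀ (by positivity) h 2
  nlinarith

theorem Disc_subset_Dom {a : ℝ} (ha : 0 < a) (ha1 : a ≤ 1) : Disc (a, 0) (a ^ 2 / 8) ⊆ Dom := by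
  intro z hz
  have hz' : (z.1 - a) ^ 2 + (z.2 - 0) ^ 2 ≤ (a ^ 2 / 8) ^ 2 := hz
  have hpos : 0 ≤ a ^ 2 / 8 := by positivity
  have h1 : |z.1 - a| ≤ a ^ 2 / 8 := by
    have : |z.1 - a| ≤ |a ^ 2 / 8| := by
      apply sq_le_sq.mp
      nlinarith [sq_nonneg (z.2 - 0)]
    rwa [abs_of_nonneg hpos] at this
  have h2 : |z.2| ≤ a ^ 2 / 8 := by
    have : |z.2 - 0| ≤ |a ^ 2 / 8| := by
      apply sq_le_sq.mp
      nlinarith [sq_nonneg (z.1 - a)]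
    rwa [abs_of_nonneg hpos, sub_zero] at this
  have h1' := (abs_le.mp h1).1
  have ha2 : a ^ 2 ≤ a := by nlinarith
  have h3 : 7 * a / 8 ≤ z.1 := by linarith
  refine ⟨by linarith, ?_⟩
  have h4 : (7 * a / 8) ^ 2 ≤ z.1 ^ 2 := pow_le_pow_left₀ (by positivity) h3 2
  have h5 : 0 < a ^ 2 := by positivity
  show 2 * |z.2| < z.1 ^ 2
  nlinarith

end Pool.Agent.Helper98.MW
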