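import Pool.Agent.Helper98.MW.A.Slice
import Pool.Agent.Helper98.MW.B.Fixed
import Pool.Agent.Helper98.MW.B.Profile

/-! MW-B11. Gradients of `T0` and `SS` on the zigzag (use `deriv_slice_x`, `deriv_slice_y`):
`T0 = (x - cc)/den`, `T0_x = 1/den`, `T0_y = -kap/den - (x - cc) den'/den^2 = -kap/den` on the curve;
`SS = y + (x - cc) kap/den`, `SS_x = kap/den`, `SS_y = 1 - kap^2/den = 1/den` on the curve. -/

namespace Pool.Agent.Helper98.MW

private theorem hasDerivAt_kap (η y : ℝ) :
    HasDerivAt (fun y => kap η y) (η * (-Real.sin (2 * Real.pi * y) * (2 * Real.pi))) y := by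
  have h1 : HasDerivAt (fun y : ℝ => 2 * Real.pi * y) (2 * Real.pi) y := by
    simpa using (hasDerivAt_id y).const_mul (2 * Real.pi)
  exact (h1.cos).const_mul η

private theorem hasDerivAt_den (η y : ℝ) :
    HasDerivAt (fun y => den η y)
      (2 * kap η y * (η * (-Real.sin (2 * Real.pi * y) * (2 * Real.pi)))) y := by
  have h1 := ((hasDerivAt_kap η y).pow 2).const_add 1
  have e : (2 * kap η y * (η * (-Real.sin (2 * Real.pi * y) * (2 * Real.pi)))) =
      ((2 : ℕ) : ℝ) * kap η y ^ (2 - 1) * (η * (-Real.sin (2 * Real.pi * y) * (2 * Real.pi))) := by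
    norm_num
  rw [e]
  exact h1

private theorem den_ne (η y : ℝ) : den η y ≠ 0 := by
  have h : 0 < den η y := by
    unfold den
    positivity
  exact h.ne'

theorem T0_x (η a b y : ℝ) :
    fderiv ℝ (fun P : P4 => T0 η P.2.2.1 P.2.2.2) (a, b, cc η y, y) eX = 1 / den η y := by
  rw [← deriv_slice_x (contDiff_T0_fix η) a b (cc η y) y]
  exact (((hasDerivAt_id (cc η y)).sub_const (cc η y)).div_const (den η y)).deriv

theorem T0_y (η a b y : ℝ) :
    fderiv ℝ (fun P : P4 => T0 η P.2.2.1 P.2.2.2) (a, b, cc η y, y) eY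
      = -(kap η y) / den η y := by
  rw [← deriv_slice_y (contDiff_T0_fix η) a b (cc η y) y]
  have h1 : HasDerivAt (fun y' => cc η y - cc η y') (-(kap η y)) y :=
    (hasDerivAt_cc η y).const_sub (cc η y)
  have h2 := h1.div (hasDerivAt_den η y) (den_ne η y)
  have h3 : deriv (fun y' => T0 η (cc η y) y') y = _ := h2.deriv
  show deriv (fun y' => T0 η (cc η y) y') y = _
  rw [h3]
  have hd := den_ne η y
  field_simp
  ring

theorem SS_x (η a b y : ℝ) :
    fderiv ℝ (fun P : P4 => SS η P.2.2.1 P.2.2.2) (a, b, cc η y, y) eX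
      = kap η y / den η y := by
  rw [← deriv_slice_x (contDiff_SS_fix η) a b (cc η y) y]
  have h1 := ((((hasDerivAt_id (cc η y)).sub_const (cc η y)).mul_const (kap η y)).div_const
    (den η y)).const_add y
  rw [one_mul] at h1
  exact h1.deriv

theorem SS_y (η a b y : ℝ) :
    fderiv ℝ (fun P : P4 => SS η P.2.2.1 P.2.2.2) (a, b, cc η y, y) eY = 1 / den η y := by
  rw [← deriv_slice_y (contDiff_SS_fix η) a b (cc η y) y]
  have h1 : HasDerivAt (fun y' => cc η y - cc η y') (-(kap η y)) y :=
    (hasDerivAt_cc η y).const_sub (cc η y)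
  have h2 := (hasDerivAt_id y).add
    ((h1.mul (hasDerivAt_kap η y)).div (hasDerivAt_den η y) (den_ne η y))
  have h3 : deriv (fun y' => SS η (cc η y) y') y = _ := h2.deriv
  show deriv (fun y' => SS η (cc η y) y') y = _
  rw [h3]
  have hd := den_ne η y
  have hk : den η y = 1 + kap η y ^ 2 := rfl
  simp only [Pi.mul_apply, sub_self, zero_mul, add_zero, sub_zero]
  field_simp
  rw [hk]
  ring

end Pool.Agent.Helper98.MW
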