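import Pool.Agent.Helper98.MW.Defs

/-! MW-B04. Behaviour under `y ↦ y + 1` (`cos (2π(y+1)) = cos (2πy)` etc., also for the frequencies 2 and 3). -/

namespace Pool.Agent.Helper98.MW

open Real

private theorem cos1 (y : ℝ) : cos (2 * π * (y + 1)) = cos (2 * π * y) := by
  have h : 2 * π * (y + 1) = 2 * π * y + 2 * π := by ring
  rw [h, cos_add_two_pi]

private theorem sin1 (y : ℝ) : sin (2 * π * (y + 1)) = sin (2 * π * y) := by
  have h : 2 * π * (y + 1) = 2 * π * y + 2 * π := by ring
  rw [h, sin_add_two_pi]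

private theorem cos2 (y : ℝ) : cos (2 * (2 * π * (y + 1))) = cos (2 * (2 * π * y)) := by
  rw [cos_two_mul, cos_two_mul, cos1]

private theorem sin2 (y : ℝ) : sin (2 * (2 * π * (y + 1))) = sin (2 * (2 * π * y)) := by
  rw [sin_two_mul, sin_two_mul, cos1, sin1]

private theorem cos3 (y : ℝ) : cos (3 * (2 * π * (y + 1))) = cos (3 * (2 * π * y)) := by
  rw [cos_three_mul, cos_three_mul, cos1]

theorem kap_add_one (η y : ℝ) : kap η (y + 1) = kap η y := by
  unfold kap
  rw [cos1]

theorem cc_add_one (η y : ℝ) : cc η (y + 1) = cc η y := by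
  unfold cc
  rw [sin1]

theorem den_add_one (η y : ℝ) : den η (y + 1) = den η y := by
  unfold den
  rw [kap_add_one]

theorem al_add_one (c : ℝ × ℝ) (η a b y : ℝ) : al c η a b (y + 1) = al c η a b y := by
  unfold al
  rw [cos1]

theorem bl_add_one (c : ℝ × ℝ) (η a b y : ℝ) : bl c η a b (y + 1) = bl c η a b y := by
  unfold bl
  rw [cos1]

private theorem e0_add_one (c : ℝ × ℝ) (η a b y : ℝ) : e0 c η a b (y + 1) = e0 c η a b y := by
  unfold e0
  rw [cos1, cos2, cos3]

private theorem e1_add_one (c : ℝ × ℝ) (η a b y : ℝ) : e1 c η a b (y + 1) = e1 c η a b y := by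
  unfold e1
  rw [sin1, sin2]

private theorem N11_add_one (c : ℝ × ℝ) (η a b y : ℝ) :
    N11 c η a b (y + 1) = N11 c η a b y := by
  unfold N11
  rw [al_add_one, bl_add_one, kap_add_one, den_add_one]

theorem EE_add_one (c : ℝ × ℝ) (η a b x y : ℝ) : EE c η a b x (y + 1) = EE c η a b x y := by
  unfold EE
  rw [e0_add_one, e1_add_one, N11_add_one, cc_add_one]

theorem mm_add_one (η x y : ℝ) : mm η x (y + 1) = mm η x y := by
  unfold mm
  rw [kap_add_one]

theorem TT_add_one (η x y : ℝ) : TT η x (y + 1) = TT η x y := by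
  unfold TT
  rw [cc_add_one, mm_add_one]

theorem SS_add_one (η x y : ℝ) : SS η x (y + 1) = SS η x y + 1 := by
  unfold SS
  rw [cc_add_one, kap_add_one, den_add_one]
  ring

end Pool.Agent.Helper98.MW
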