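import Pool.Agent.Helper98.MW.B.Smooth
import Pool.Agent.Helper98.MW.B.Periodic

/-! MW-B05. The outer functions at `η = 0` (then `kap = cc = 0`, `EE = 0`, `mm = 1`), for `1 ≤ |x|` (`chi = 0`), and
their behaviour under `y ↦ y + 1`. -/

namespace Pool.Agent.Helper98.MW

theorem EE_zero (c : ℝ × ℝ) (a b x y : ℝ) : EE c 0 a b x y = 0 := by
  simp [EE, e0, e1, N11, kap, cc, cP1, cP2, cQ1, cQ2]

theorem Out_zero (σ : ℝ) (c : ℝ × ℝ) (P : P4) : Out σ c (0, P) = QQ P - σ * P.2.2.1 ^ 2 := by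
  have h1 : mm 0 P.2.2.1 P.2.2.2 = 1 := by simp [mm, kap]
  have h2 : cc 0 P.2.2.2 = 0 := by simp [cc]
  simp only [Out, EE_zero, h1, h2]
  ring

theorem Out_far (σ : ℝ) (c : ℝ × ℝ) (η : ℝ) {P : P4} (h : 1 ≤ |P.2.2.1|) :
    Out σ c (η, P) = QQ P - σ * P.2.2.1 ^ 2 := by
  have h0 : chi P.2.2.1 = 0 := chi_eq_zero h
  have h1 : mm η P.2.2.1 P.2.2.2 = 1 := by simp [mm, h0]
  simp only [Out, h0, h1]
  ring

/-- `Out - QQ` is `1`-periodic in `y` -/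
theorem Out_sub_periodic (σ : ℝ) (c : ℝ × ℝ) (η : ℝ) (P : P4) :
    Out σ c (η, P + eY) - QQ (P + eY) = Out σ c (η, P) - QQ P := by
  have e1 : (P + eY).1 = P.1 := by simp [eY]
  have e2 : (P + eY).2.1 = P.2.1 := by simp [eY]
  have e3 : (P + eY).2.2.1 = P.2.2.1 := by simp [eY]
  have e4 : (P + eY).2.2.2 = P.2.2.2 + 1 := by simp [eY]
  simp only [Out, e1, e2, e3, e4, EE_add_one, mm_add_one, cc_add_one]
  ring

end Pool.Agent.Helper98.MW
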