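import Pool.Agent.Helper98.MW.A.Add
import Pool.Agent.Helper98.MW.A.Comp
import Pool.Agent.Helper98.MW.A.Basic
import Pool.Agent.Helper98.MW.A.QQ
import Pool.Agent.Helper98.MW.B.Fixed
import Pool.Agent.Helper98.MW.B.OutFacts

/-! MW-B06. The Hessian of the outer functions.
* `OutH2_eq`: `H2_comp_affine` for the affine map `P ↦ (η, P)` (`L = ContinuousLinearMap.inr`).
* `OutH2_continuous`: from `OutH2_eq` and `H2_continuous`.
* `OutH2_zero`: `Out_zero` and `H2_QQ_sub`.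
* `OutH2_far`: `1 < |x|` is an open condition, so `Out_far` holds near `P`; `H2_congr`, `H2_QQ_sub`.
* `OutH2_periodic`: `Out σ c (η, ·) - QQ` is periodic (`Out_sub_periodic`), so `H2_periodic`; and `H2 QQ` is given by
  `H2_QQ_xx`, `H2_QQ_xy`, `H2_QQ_yy`, unchanged under `P ↦ P + eY`. -/

namespace Pool.Agent.Helper98.MW

theorem OutH2_eq (σ : ℝ) (c : ℝ × ℝ) (η : ℝ) (P v u : P4) :
    H2 (fun P : P4 => Out σ c (η, P)) P v u = H2 (Out σ c) (η, P) (0, v) (0, u) := by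
  have h := H2_comp_affine (contDiff_Out σ c) (ContinuousLinearMap.inr ℝ ℝ P4)
    ((η, 0) : ℝ × P4) P v u
  simpa using h

theorem OutH2_continuous (σ : ℝ) (c : ℝ × ℝ) (v u : P4) :
    Continuous (fun p : ℝ × P4 => H2 (fun P : P4 => Out σ c (p.1, P)) p.2 v u) := by
  have h1 : (fun p : ℝ × P4 => H2 (fun P : P4 => Out σ c (p.1, P)) p.2 v u)
      = fun p : ℝ × P4 => H2 (Out σ c) p (0, v) (0, u) := by
    funext p
    exact OutH2_eq σ c p.1 p.2 v u
  rw [h1]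
  have h2 : Continuous fun p : ℝ × P4 => (p, ((0 : ℝ), v), ((0 : ℝ), u)) := by fun_prop
  exact (H2_continuous (contDiff_Out σ c)).comp h2

theorem OutH2_zero (σ : ℝ) (c : ℝ × ℝ) (P : P4) :
    H2 (fun P : P4 => Out σ c (0, P)) P eX eX = -(2 * σ) ∧
    H2 (fun P : P4 => Out σ c (0, P)) P eX eY = P.1 ∧
    H2 (fun P : P4 => Out σ c (0, P)) P eY eY = P.2.1 := by
  have h : (fun P : P4 => Out σ c (0, P)) = fun P : P4 => QQ P - σ * P.2.2.1 ^ 2 :=
    funext fun P => Out_zero σ c P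
  rw [h]
  exact H2_QQ_sub σ P

theorem OutH2_far (σ : ℝ) (c : ℝ × ℝ) (η : ℝ) {P : P4} (h : 1 < |P.2.2.1|) :
    H2 (fun P : P4 => Out σ c (η, P)) P eX eX = -(2 * σ) ∧
    H2 (fun P : P4 => Out σ c (η, P)) P eX eY = P.1 ∧
    H2 (fun P : P4 => Out σ c (η, P)) P eY eY = P.2.1 := by
  have hopen : IsOpen {Q : P4 | 1 < |Q.2.2.1|} :=
    isOpen_lt continuous_const (by fun_prop)
  have hev : (fun P : P4 => Out σ c (η, P)) =ᶠ[nhds P]
      fun P : P4 => QQ P - σ * P.2.2.1 ^ 2 := by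
    filter_upwards [hopen.mem_nhds h] with Q hQ
    exact Out_far σ c η (le_of_lt hQ)
  rw [H2_congr hev, H2_congr hev, H2_congr hev]
  exact H2_QQ_sub σ P

theorem OutH2_periodic (σ : ℝ) (c : ℝ × ℝ) (η a b x y : ℝ) (n : ℤ) :
    H2 (fun P : P4 => Out σ c (η, P)) (a, b, x, y + n) eX eX
      = H2 (fun P : P4 => Out σ c (η, P)) (a, b, x, y) eX eX ∧
    H2 (fun P : P4 => Out σ c (η, P)) (a, b, x, y + n) eX eY
      = H2 (fun P : P4 => Out σ c (η, P)) (a, b, x, y) eX eY ∧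
    H2 (fun P : P4 => Out σ c (η, P)) (a, b, x, y + n) eY eY
      = H2 (fun P : P4 => Out σ c (η, P)) (a, b, x, y) eY eY := by
  have hper : Function.Periodic (fun P : P4 => Out σ c (η, P) - QQ P) eY :=
    fun P => Out_sub_periodic σ c η P
  have hper' : ∀ Q : P4, (fun P : P4 => Out σ c (η, P) - QQ P) (Q + n • eY)
      = (fun P : P4 => Out σ c (η, P) - QQ P) Q := fun Q => hper.zsmul n Q
  have hsm : ContDiff ℝ (⊤ : ℕ∞) (fun P : P4 => Out σ c (η, P) - QQ P) :=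
    (contDiff_Out_fix σ c η).sub contDiff_QQ
  have hpt : ((a, b, x, y + n) : P4) = (a, b, x, y) + n • eY := by
    simp [eY]
  have key : ∀ P v u : P4, H2 (fun P : P4 => Out σ c (η, P)) P v u
      = H2 (fun P : P4 => Out σ c (η, P) - QQ P) P v u + H2 QQ P v u := by
    intro P v u
    rw [← H2_add hsm contDiff_QQ P v u]
    congr 1
    funext Q
    ring
  have h3 : ∀ v u : P4, H2 (fun P : P4 => Out σ c (η, P) - QQ P) (a, b, x, y + n) v u
      = H2 (fun P : P4 => Out σ c (η, P) - QQ P) (a, b, x, y) v u := by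
    intro v u
    rw [hpt]
    exact H2_periodic hper' (a, b, x, y) v u
  refine ⟨?_, ?_, ?_⟩
  · rw [key, key, h3, H2_QQ_xx, H2_QQ_xx]
  · rw [key, key, h3, H2_QQ_xy, H2_QQ_xy]
  · rw [key, key, h3, H2_QQ_yy, H2_QQ_yy]

end Pool.Agent.Helper98.MW
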