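import Pool.Agent.Helper98.MW.A.Tube
import Pool.Agent.Helper98.MW.B.OutH2
import Pool.Agent.Helper98.MW.B.DiscFacts

/-! MW-B08. The outer functions are good for small `η`. Proof: `good_tube` with `K = P4`,
`S = {(a, b, x, y) : (a, b) ∈ Disc c R, |x| ≤ 1, y ∈ [0, 1]}` (compact), `f (η, P) = H2 (Out σ c (η, ·)) P eX eX`, ...
(continuous by `OutH2_continuous`); at `η = 0` the entries are `(-(2σ), a, b)` (`OutH2_zero`), `Good` because
`(a, b) ∈ Dom`: `-(2σ) b ≤ 2 |b| < a ^ 2`, `4 > 1`. This gives `δ`; take `η0 = δ / 2`. For general `y` use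
`OutH2_periodic` with `n = -⌊y⌋`; for `1 < |x|` use `OutH2_far` (same matrix). -/

namespace Pool.Agent.Helper98.MW

theorem good_dom {a b σ : ℝ} (h : (a, b) ∈ Dom) (hσ : σ = 1 ∨ σ = -1) :
    Good (-(2 * σ)) a b := by
  obtain ⟨ha, hb⟩ := h
  have ha' : 0 < a := ha
  have hb' : 2 * |b| < a ^ 2 := hb
  have h1 := le_abs_self b
  have h2 := neg_abs_le b
  rcases hσ with rfl | rfl
  · refine ⟨by linarith, ?_⟩
    nlinarith [sq_nonneg a, sq_nonneg b]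
  · refine ⟨by linarith, ?_⟩
    nlinarith [sq_nonneg a, sq_nonneg b]

theorem outer_good (c : ℝ × ℝ) (R : ℝ) (hR : Disc c R ⊆ Dom) (σ : ℝ) (hσ : σ = 1 ∨ σ = -1) :
    ∃ η0 > 0, ∀ η : ℝ, 0 < η → η ≤ η0 → ∀ a b x y : ℝ, (a, b) ∈ Disc c R →
      Good (H2 (fun P : P4 => Out σ c (η, P)) (a, b, x, y) eX eX)
        (H2 (fun P : P4 => Out σ c (η, P)) (a, b, x, y) eX eY)
        (H2 (fun P : P4 => Out σ c (η, P)) (a, b, x, y) eY eY) := by
  have hS : IsCompact ((fun q : (ℝ × ℝ) × ℝ × ℝ => ((q.1.1, q.1.2, q.2.1, q.2.2) : P4)) ''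
      (Disc c R ×ˢ (Set.Icc (-1 : ℝ) 1 ×ˢ Set.Icc (0 : ℝ) 1))) := by
    refine ((isCompact_Disc c R).prod (isCompact_Icc.prod isCompact_Icc)).image ?_
    fun_prop
  obtain ⟨δ, hδ, H⟩ := good_tube hS
    (f := fun p : ℝ × P4 => H2 (fun P : P4 => Out σ c (p.1, P)) p.2 eX eX)
    (g := fun p : ℝ × P4 => H2 (fun P : P4 => Out σ c (p.1, P)) p.2 eX eY)
    (h := fun p : ℝ × P4 => H2 (fun P : P4 => Out σ c (p.1, P)) p.2 eY eY)
    (fun k _ => (OutH2_continuous σ c eX eX).continuousAt)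
    (fun k _ => (OutH2_continuous σ c eX eY).continuousAt)
    (fun k _ => (OutH2_continuous σ c eY eY).continuousAt)
    (by
      rintro k ⟨q, ⟨hq1, -⟩, rfl⟩
      obtain ⟨h1, h2, h3⟩ := OutH2_zero σ c (q.1.1, q.1.2, q.2.1, q.2.2)
      show Good (H2 (fun P : P4 => Out σ c (0, P)) (q.1.1, q.1.2, q.2.1, q.2.2) eX eX)
        (H2 (fun P : P4 => Out σ c (0, P)) (q.1.1, q.1.2, q.2.1, q.2.2) eX eY)
        (H2 (fun P : P4 => Out σ c (0, P)) (q.1.1, q.1.2, q.2.1, q.2.2) eY eY)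
      rw [h1, h2, h3]
      exact good_dom (hR hq1) hσ)
  refine ⟨δ / 2, half_pos hδ, fun η hη hη2 a b x y hab => ?_⟩
  rcases le_or_gt |x| 1 with hx | hx
  · obtain ⟨h1, h2, h3⟩ := OutH2_periodic σ c η a b x y (-⌊y⌋)
    rw [← h1, ← h2, ← h3]
    have hy : y + ((-⌊y⌋ : ℤ) : ℝ) = Int.fract y := by
      push_cast
      rw [Int.fract]
      ring
    rw [hy]
    refine H η (by rw [abs_of_pos hη]; linarith) (a, b, x, Int.fract y) ?_
    refine ⟨((a, b), (x, Int.fract y)), ⟨hab, ?_, ?_⟩, rfl⟩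
    · exact abs_le.1 hx
    · exact ⟨Int.fract_nonneg y, (Int.fract_lt_one y).le⟩
  · obtain ⟨h1, h2, h3⟩ := OutH2_far σ c η (P := (a, b, x, y)) hx
    rw [h1, h2, h3]
    exact good_dom (hR hab) hσ

end Pool.Agent.Helper98.MW
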