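import Pool.Agent.Helper98.MW.Defs

/-! MW-B13. Rotation invariance of `Good`. With `κ` and `D = 1 + κ^2`, the matrix with entries
`G11 = (A + 2 B κ + C κ^2)/D`, `G12 = (-κ A + B (1-κ^2) + κ C)/D`, `G22 = (κ^2 A - 2 κ B + C)/D` is the rotation of
`(A, B, C)`: same determinant and same Frobenius norm. Then `curve_good`: with `A = wXX`, `B = al + wXY`, `C = bl + wYY`
these entries are `N11 + (wXX + 2 κ wXY + κ^2 wYY)/D`, `N12 + (-κ wXX + (1-κ^2) wXY + κ wYY)/D`,
`N22 + (κ^2 wXX - 2κ wXY + wYY)/D`. (`field_simp; ring` and `linarith`.) -/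

namespace Pool.Agent.Helper98.MW

theorem good_rotate {A B C : ℝ} (κ : ℝ) (h : Good A B C) :
    Good ((A + 2 * B * κ + C * κ ^ 2) / (1 + κ ^ 2))
      ((-κ * A + B * (1 - κ ^ 2) + κ * C) / (1 + κ ^ 2))
      ((κ ^ 2 * A - 2 * κ * B + C) / (1 + κ ^ 2)) := by
  obtain ⟨h1, h2⟩ := h
  have hD : (1 + κ ^ 2) ≠ 0 := by positivity
  have e1 : ((A + 2 * B * κ + C * κ ^ 2) / (1 + κ ^ 2)) *
      ((κ ^ 2 * A - 2 * κ * B + C) / (1 + κ ^ 2)) -
      ((-κ * A + B * (1 - κ ^ 2) + κ * C) / (1 + κ ^ 2)) ^ 2 = A * C - B ^ 2 := by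
    field_simp
    ring
  have e2 : ((A + 2 * B * κ + C * κ ^ 2) / (1 + κ ^ 2)) ^ 2 +
      2 * ((-κ * A + B * (1 - κ ^ 2) + κ * C) / (1 + κ ^ 2)) ^ 2 +
      ((κ ^ 2 * A - 2 * κ * B + C) / (1 + κ ^ 2)) ^ 2 = A ^ 2 + 2 * B ^ 2 + C ^ 2 := by
    field_simp
    ring
  exact ⟨by linarith, by rw [e2]; exact h2⟩

theorem curve_good (c : ℝ × ℝ) (η a b y : ℝ) {A B C : ℝ}
    (h : Good A (al c η a b y + B) (bl c η a b y + C)) :
    Good (N11 c η a b y + (A + 2 * kap η y * B + kap η y ^ 2 * C) / den η y)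
      (N12 c η a b y + (-kap η y * A + (1 - kap η y ^ 2) * B + kap η y * C) / den η y)
      (N22 c η a b y + (kap η y ^ 2 * A - 2 * kap η y * B + C) / den η y) := by
  have hr := good_rotate (kap η y) h
  have hD : (1 + kap η y ^ 2) ≠ 0 := by positivity
  have k1 : N11 c η a b y + (A + 2 * kap η y * B + kap η y ^ 2 * C) / den η y =
      (A + 2 * (al c η a b y + B) * kap η y + (bl c η a b y + C) * kap η y ^ 2) /
        (1 + kap η y ^ 2) := by
    unfold N11 den
    rw [← add_div]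
    congr 1
    ring
  have k2 : N12 c η a b y +
      (-kap η y * A + (1 - kap η y ^ 2) * B + kap η y * C) / den η y =
      (-kap η y * A + (al c η a b y + B) * (1 - kap η y ^ 2) +
        kap η y * (bl c η a b y + C)) / (1 + kap η y ^ 2) := by
    unfold N12 den
    rw [← add_div]
    congr 1
    ring
  have k3 : N22 c η a b y +
      (kap η y ^ 2 * A - 2 * kap η y * B + C) / den η y =
      (kap η y ^ 2 * A - 2 * kap η y * (al c η a b y + B) + (bl c η a b y + C)) /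
        (1 + kap η y ^ 2) := by
    unfold N22 den
    rw [← add_div]
    congr 1
    ring
  rw [k1, k2, k3]
  exact hr

end Pool.Agent.Helper98.MW
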