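import Pool.Agent.Helper98.MW.B.Chi

/-! MW-B02. Joint smoothness of the macroscopic functions in `(η, P)`, `P = (a, b, x, y)` (all are built from
`sin`, `cos`, polynomials, `chi` and division by `den ≥ 1` or `mm ≥ 1`): unfold and use `fun_prop` /
`ContDiff.div` with the positivity of the denominators. -/

namespace Pool.Agent.Helper98.MW

theorem den_pos (η y : ℝ) : 0 < den η y := by
  unfold den
  positivity

theorem one_le_mm (η x y : ℝ) : 1 ≤ mm η x y := by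
  unfold mm
  have h := mul_nonneg (chi_nonneg x) (sq_nonneg (kap η y))
  linarith

theorem contDiff_kap : ContDiff ℝ (⊤ : ℕ∞) (fun p : ℝ × P4 => kap p.1 p.2.2.2.2) := by
  unfold kap
  fun_prop

theorem contDiff_cc : ContDiff ℝ (⊤ : ℕ∞) (fun p : ℝ × P4 => cc p.1 p.2.2.2.2) := by
  unfold cc
  fun_prop

theorem contDiff_den : ContDiff ℝ (⊤ : ℕ∞) (fun p : ℝ × P4 => den p.1 p.2.2.2.2) := by
  unfold den
  exact contDiff_const.add (contDiff_kap.pow 2)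

theorem contDiff_al (c : ℝ × ℝ) :
    ContDiff ℝ (⊤ : ℕ∞) (fun p : ℝ × P4 => al c p.1 p.2.1 p.2.2.1 p.2.2.2.2) := by
  unfold al
  fun_prop

theorem contDiff_bl (c : ℝ × ℝ) :
    ContDiff ℝ (⊤ : ℕ∞) (fun p : ℝ × P4 => bl c p.1 p.2.1 p.2.2.1 p.2.2.2.2) := by
  unfold bl
  fun_prop

private lemma mwb02_xc : ContDiff ℝ (⊤ : ℕ∞)
    (fun p : ℝ × P4 => p.2.2.2.1 - cc p.1 p.2.2.2.2) :=
  ContDiff.sub (by fun_prop) contDiff_cc

private lemma mwb02_N11 (c : ℝ × ℝ) :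
    ContDiff ℝ (⊤ : ℕ∞) (fun p : ℝ × P4 => N11 c p.1 p.2.1 p.2.2.1 p.2.2.2.2) := by
  unfold N11
  refine ContDiff.div ?_ contDiff_den (fun p => (den_pos _ _).ne')
  exact ((contDiff_const.mul (contDiff_al c)).mul contDiff_kap).add
    ((contDiff_bl c).mul (contDiff_kap.pow 2))

private lemma mwb02_e0 (c : ℝ × ℝ) :
    ContDiff ℝ (⊤ : ℕ∞) (fun p : ℝ × P4 => e0 c p.1 p.2.1 p.2.2.1 p.2.2.2.2) := by
  unfold e0 cP1 cP2 cQ1 cQ2
  fun_prop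

private lemma mwb02_e1 (c : ℝ × ℝ) :
    ContDiff ℝ (⊤ : ℕ∞) (fun p : ℝ × P4 => e1 c p.1 p.2.1 p.2.2.1 p.2.2.2.2) := by
  unfold e1 cP1 cP2
  fun_prop

theorem contDiff_EE (c : ℝ × ℝ) :
    ContDiff ℝ (⊤ : ℕ∞) (fun p : ℝ × P4 => EE c p.1 p.2.1 p.2.2.1 p.2.2.2.1 p.2.2.2.2) := by
  unfold EE
  exact ((mwb02_e0 c).add ((mwb02_e1 c).mul mwb02_xc)).add
    (((mwb02_N11 c).mul (mwb02_xc.pow 2)).div_const 2)

private lemma mwb02_chi : ContDiff ℝ (⊤ : ℕ∞) (fun p : ℝ × P4 => chi p.2.2.2.1) :=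
  contDiff_chi.comp (by fun_prop)

theorem contDiff_mm : ContDiff ℝ (⊤ : ℕ∞) (fun p : ℝ × P4 => mm p.1 p.2.2.2.1 p.2.2.2.2) := by
  unfold mm
  exact contDiff_const.add (mwb02_chi.mul (contDiff_kap.pow 2))

private lemma mwb02_xcc : ContDiff ℝ (⊤ : ℕ∞)
    (fun p : ℝ × P4 => p.2.2.2.1 - chi p.2.2.2.1 * cc p.1 p.2.2.2.2) :=
  ContDiff.sub (by fun_prop) (mwb02_chi.mul contDiff_cc)

theorem contDiff_TT : ContDiff ℝ (⊤ : ℕ∞) (fun p : ℝ × P4 => TT p.1 p.2.2.2.1 p.2.2.2.2) := by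
  unfold TT
  exact mwb02_xcc.div contDiff_mm (fun p => (lt_of_lt_of_le one_pos (one_le_mm _ _ _)).ne')

theorem contDiff_T0 : ContDiff ℝ (⊤ : ℕ∞) (fun p : ℝ × P4 => T0 p.1 p.2.2.2.1 p.2.2.2.2) := by
  unfold T0
  exact mwb02_xc.div contDiff_den (fun p => (den_pos _ _).ne')

theorem contDiff_SS : ContDiff ℝ (⊤ : ℕ∞) (fun p : ℝ × P4 => SS p.1 p.2.2.2.1 p.2.2.2.2) := by
  unfold SS
  refine ContDiff.add (by fun_prop) ?_
  exact (mwb02_xc.mul contDiff_kap).div contDiff_den (fun p => (den_pos _ _).ne')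

theorem contDiff_Out (σ : ℝ) (c : ℝ × ℝ) : ContDiff ℝ (⊤ : ℕ∞) (Out σ c) := by
  have hQ : ContDiff ℝ (⊤ : ℕ∞) (fun p : ℝ × P4 => QQ p.2) := by
    unfold QQ
    fun_prop
  have h1 : ContDiff ℝ (⊤ : ℕ∞) (fun p : ℝ × P4 =>
      (p.2.2.2.1 - chi p.2.2.2.1 * cc p.1 p.2.2.2.2) ^ 2 / mm p.1 p.2.2.2.1 p.2.2.2.2) :=
    (mwb02_xcc.pow 2).div contDiff_mm (fun p => (lt_of_lt_of_le one_pos (one_le_mm _ _ _)).ne')
  exact (hQ.add (mwb02_chi.mul (contDiff_EE c))).sub (contDiff_const.mul h1)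

end Pool.Agent.Helper98.MW
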